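import Pool.Agent.Helper79_HMC.Stmts

/-!
# SHF: a word acts on a window (helper65, squad HMC, MP_f63292_lc)
-/

set_option autoImplicit false

namespace Pool.Agent.HMC.H65

theorem getD_win (l a r : List (Fin 3)) (i : ℕ) (h : i < a.length) :
    (l ++ a ++ r).getD (i + l.length) 0 = a.getD i 0 := by
  rw [List.getD_eq_getElem?_getD, List.getD_eq_getElem?_getD, List.append_assoc,
    List.getElem?_append_right (by omega), Nat.add_sub_cancel,
    List.getElem?_append_left h]

theorem set_win (l a r : List (Fin 3)) (i : ℕ) (v : Fin 3) (h : i < a.length) :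
    (l ++ a ++ r).set (i + l.length) v = l ++ a.set i v ++ r := by
  rw [List.append_assoc, List.set_append_right _ _ (by omega), Nat.add_sub_cancel,
    List.set_append_left _ _ h, List.append_assoc]

theorem stepL_length {j : ℕ} {a b : List (Fin 3)} (h : b ∈ stepL j a) : b.length = a.length := by
  unfold stepL at h
  split_ifs at h with h1 h2
  · simp only [List.mem_cons, List.not_mem_nil, or_false] at h
    rcases h with rfl | rfl <;> simp
  · simp only [List.mem_cons, List.not_mem_nil, or_false] at h
    rw [h]
  · simp at h

theorem stepL_win (l a r : List (Fin 3)) (j : ℕ) (h : j + 1 < 2 * a.length) :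
    stepL (j + 2 * l.length) (l ++ a ++ r) = (stepL j a).map (fun b => l ++ b ++ r) := by
  have e1 : (j + 2 * l.length) % 2 = j % 2 := by omega
  have e2 : (j + 2 * l.length) / 2 = j / 2 + l.length := by omega
  have e3 : j / 2 + l.length + 1 = (j / 2 + 1) + l.length := by omega
  unfold stepL
  rw [e1, e2, e3]
  by_cases hj : j % 2 = 0
  · have h1 : j / 2 < a.length := by omega
    rw [if_pos hj, if_pos hj, getD_win l a r _ h1, set_win l a r _ _ h1, set_win l a r _ _ h1]
    simp
  · have h1 : j / 2 < a.length := by omega
    have h2 : j / 2 + 1 < a.length := by omega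
    rw [if_neg hj, if_neg hj, getD_win l a r _ h1, getD_win l a r _ h2]
    split_ifs <;> simp

/-- SHF -/
theorem shf : ShfStmt := by
  intro l a r u
  induction u generalizing a with
  | nil =>
    intro _
    simp [sh, run]
  | cons j u ih =>
    intro h
    have hj := h j (by simp)
    have hu : ∀ i ∈ u, i + 1 < 2 * a.length := fun i hi => h i (by simp [hi])
    have e : sh (2 * l.length) (j :: u) = (j + 2 * l.length) :: sh (2 * l.length) u := rfl
    rw [e]
    simp only [run]
    rw [stepL_win l a r j hj, List.flatMap_map, List.map_flatMap]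
    refine List.flatMap_congr fun b hb => ?_
    have hl := stepL_length hb
    exact ih b (fun i hi => by rw [hl]; exact hu i hi)

end Pool.Agent.HMC.H65
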